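import Pool.Agent.Helper81.PX.Defs3

/-!
Project PX (MP_b8862a_ag), block PX-12: few roots, `O(√X)`, from the three counting lemmas.
-/

open Finset

namespace PX

/-- a set coded by finite sets of vectors -/
theorem half_of_code3 {r : ℕ} {S : Set ℕ} {Q : ℕ} (hQ : 0 < Q) (R : (Fin r → ℕ) → Prop) (g : (Fin r → ℕ) → ℕ)
    (h : ∀ n ∈ S, ∃ b, R b ∧ n * Q = g b) {C : ℝ}
    (hC : ∀ (Y : ℕ) (B : Finset (Fin r → ℕ)), (∀ b ∈ B, R b ∧ g b ≤ Y) → (B.card : ℝ) ≤ C * (Y : ℝ) ^ (1 / 2 : ℝ)) :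
    Half S := by
  classical
  refine ⟨C * (Q : ℝ) ^ (1 / 2 : ℝ), fun X => ?_⟩
  choose! β hβ using h
  have h1 : PW.cn S X ≤ (((Icc 1 X).filter (· ∈ S)).image β).card := by
    unfold PW.cn
    refine le_of_eq (Eq.trans ?_ (card_image_of_injOn (s := (Icc 1 X).filter (· ∈ S)) (f := β) ?_).symm)
    · congr
    · intro n hn n' hn' he
      have h2 := (hβ n (mem_filter.1 hn).2).2
      have h3 := (hβ n' (mem_filter.1 hn').2).2
      have he' : β n = β n' := he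
      rw [he', ← h3] at h2
      exact Nat.eq_of_mul_eq_mul_right hQ h2
  have h2 := hC (Q * X) (((Icc 1 X).filter (· ∈ S)).image β) (by
    intro b hb
    obtain ⟨n, hn, rfl⟩ := mem_image.1 hb
    obtain ⟨hn1, hn2⟩ := mem_filter.1 hn
    have h3 := hβ n hn2
    refine ⟨h3.1, ?_⟩
    rw [← h3.2, mul_comm]
    exact Nat.mul_le_mul_left _ (mem_Icc.1 hn1).2)
  calc (PW.cn S X : ℝ) ≤ ((((Icc 1 X).filter (· ∈ S)).image β).card : ℝ) := by exact_mod_cast h1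
    _ ≤ C * ((Q * X : ℕ) : ℝ) ^ (1 / 2 : ℝ) := h2
    _ = C * (Q : ℝ) ^ (1 / 2 : ℝ) * (X : ℝ) ^ (1 / 2 : ℝ) := by
      rw [Nat.cast_mul, Real.mul_rpow (Nat.cast_nonneg _) (Nat.cast_nonneg _)]
      ring

section

variable {r N : ℕ} (f : Fin N → Fin r → ℕ) (b : Fin r → ℕ)

theorem one_le_F3 (hf : ∀ a, 0 < ∑ j, f a j) (hb : ∀ j, 0 < b j) (a : Fin N) : 1 ≤ ∑ j, f a j * b j := by
  calc 1 ≤ ∑ j, f a j := hf a
    _ ≤ ∑ j, f a j * b j := sum_le_sum fun j _ => Nat.le_mul_of_pos_right _ (hb j)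

theorem b_le_F3 {a : Fin N} {j : Fin r} (h : 1 ≤ f a j) : b j ≤ ∑ i, f a i * b i := by
  calc b j = 1 * b j := (one_mul _).symm
    _ ≤ f a j * b j := Nat.mul_le_mul_right _ h
    _ ≤ ∑ i, f a i * b i := single_le_sum (f := fun i => f a i * b i) (fun _ _ => Nat.zero_le _) (mem_univ j)

/-- the coroots of height `k` -/
theorem prod_b_le3 (hb : ∀ j, 0 < b j) (k : ℕ) (hk : ∀ j, ∃ a, f a j = 1 ∧ ∑ i, f a i = k) :
    ∏ j, b j ≤ (∏ a ∈ univ.filter (fun a => ∑ i, f a i = k), ∑ j, f a j * b j) ^ k := by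
  have h1 : ∀ j, b j ≤ ∏ a ∈ univ.filter (fun a => ∑ i, f a i = k), b j ^ f a j := by
    intro j
    obtain ⟨a, ha, hk'⟩ := hk j
    have h2 := single_le_prod' (s := univ.filter (fun a => ∑ i, f a i = k)) (f := fun a => b j ^ f a j)
      (fun a _ => Nat.one_le_pow _ _ (hb j)) (mem_filter.2 ⟨mem_univ a, hk'⟩)
    simp only [ha, pow_one] at h2
    exact h2
  calc ∏ j, b j ≤ ∏ j, ∏ a ∈ univ.filter (fun a => ∑ i, f a i = k), b j ^ f a j := prod_le_prod' fun j _ => h1 j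
    _ = ∏ a ∈ univ.filter (fun a => ∑ i, f a i = k), ∏ j, b j ^ f a j := prod_comm
    _ ≤ ∏ a ∈ univ.filter (fun a => ∑ i, f a i = k), (∑ j, f a j * b j) ^ k := by
      refine prod_le_prod' fun a ha => ?_
      rw [mem_filter] at ha
      calc ∏ j, b j ^ f a j ≤ ∏ j, (∑ i, f a i * b i) ^ f a j := by
            refine prod_le_prod' fun j _ => ?_
            rcases Nat.eq_zero_or_pos (f a j) with h0 | h0
            · rw [h0, pow_zero, pow_zero]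
            · exact Nat.pow_le_pow_left (b_le_F3 f b h0) _
        _ = (∑ j, f a j * b j) ^ k := by rw [prod_pow_eq_pow_sum, ha.2]
    _ = _ := by rw [prod_pow]

/-- rank at least four -/
theorem rank4 (hf : ∀ a, 0 < ∑ j, f a j) (hb : ∀ j, 0 < b j) (hr : 4 ≤ r)
    (hk : ∀ j k, 1 ≤ k → k ≤ r → ∃ a, f a j = 1 ∧ (∀ i, f a i ≤ 1) ∧ ∑ i, f a i = k) :
    (∏ j, b j) ^ 25 ≤ (∏ a, ∑ j, f a j * b j) ^ 12 := by
  obtain ⟨p, hp⟩ : ∃ p : ℕ → ℕ, ∀ k, p k = ∏ a ∈ univ.filter (fun a => ∑ i, f a i = k), ∑ j, f a j * b j :=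
    ⟨_, fun _ => rfl⟩
  have h1 : ∀ k, 1 ≤ k → k ≤ 4 → ∏ j, b j ≤ p k ^ k := by
    intro k hk1 hk4
    rw [hp]
    exact prod_b_le3 f b hb k fun j => by
      obtain ⟨a, h1, _, h2⟩ := hk j k hk1 (hk4.trans hr)
      exact ⟨a, h1, h2⟩
  have h2 : p 1 * p 2 * p 3 * p 4 ≤ ∏ a, ∑ j, f a j * b j := by
    have h3 : ∏ k ∈ ({1, 2, 3, 4} : Finset ℕ), p k ≤ ∏ a, ∑ j, f a j * b j := by
      calc ∏ k ∈ ({1, 2, 3, 4} : Finset ℕ), p k
          = ∏ k ∈ ({1, 2, 3, 4} : Finset ℕ), ∏ a ∈ univ.filter (fun a => ∑ i, f a i = k), ∑ j, f a j * b j :=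
            prod_congr rfl fun k _ => hp k
        _ = ∏ a ∈ ({1, 2, 3, 4} : Finset ℕ).biUnion fun k => univ.filter (fun a => ∑ i, f a i = k),
            ∑ j, f a j * b j := by
            rw [prod_biUnion]
            intro k _ k' _ hkk
            refine disjoint_left.2 fun a ha ha' => hkk ?_
            rw [← (mem_filter.1 ha).2, (mem_filter.1 ha').2]
        _ ≤ ∏ a, ∑ j, f a j * b j :=
            prod_le_prod_of_subset_of_one_le' (subset_univ _) fun a _ _ => one_le_F3 f b hf hb a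
    refine le_trans (le_of_eq ?_) h3
    rw [prod_insert (by decide), prod_insert (by decide), prod_insert (by decide), prod_singleton]
    ring
  obtain ⟨T, hT⟩ : ∃ T, T = ∏ j, b j := ⟨_, rfl⟩
  rw [← hT] at h1 ⊢
  have e1 := Nat.pow_le_pow_left (h1 1 le_rfl (by norm_num)) 12
  have e2 := Nat.pow_le_pow_left (h1 2 (by norm_num) (by norm_num)) 6
  have e3 := Nat.pow_le_pow_left (h1 3 (by norm_num) (by norm_num)) 4
  have e4 := Nat.pow_le_pow_left (h1 4 (by norm_num) (by norm_num)) 3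
  calc T ^ 25 = T ^ 12 * T ^ 6 * T ^ 4 * T ^ 3 := by ring
    _ ≤ (p 1 ^ 1) ^ 12 * (p 2 ^ 2) ^ 6 * (p 3 ^ 3) ^ 4 * (p 4 ^ 4) ^ 3 :=
      Nat.mul_le_mul (Nat.mul_le_mul (Nat.mul_le_mul e1 e2) e3) e4
    _ = (p 1 * p 2 * p 3 * p 4) ^ 12 := by ring
    _ ≤ _ := Nat.pow_le_pow_left h2 12

end

/-- three simple coroots: the two others -/
theorem two_others (g : Fin 3 → ℕ) (q : Fin 3) (hq : g q = 1) (h1 : ∀ i, g i ≤ 1) (h2 : ∑ i, g i = 2) :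
    ∃ x y, q ≠ x ∧ x ≠ y ∧ q ≠ y ∧ g x = 1 ∧ g y = 0 := by
  rw [Fin.sum_univ_three] at h2
  have h3 := h1 0
  have h4 := h1 1
  have h5 := h1 2
  fin_cases q
  · have hq' : g 0 = 1 := hq
    rcases Nat.eq_zero_or_pos (g 1) with h | h
    · exact ⟨2, 1, by decide, by decide, by decide, by omega, h⟩
    · exact ⟨1, 2, by decide, by decide, by decide, by omega, by omega⟩
  · have hq' : g 1 = 1 := hq
    rcases Nat.eq_zero_or_pos (g 0) with h | h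
    · exact ⟨2, 0, by decide, by decide, by decide, by omega, h⟩
    · exact ⟨0, 2, by decide, by decide, by decide, by omega, by omega⟩
  · have hq' : g 2 = 1 := hq
    rcases Nat.eq_zero_or_pos (g 0) with h | h
    · exact ⟨1, 0, by decide, by decide, by decide, by omega, h⟩
    · exact ⟨0, 1, by decide, by decide, by decide, by omega, by omega⟩

theorem univ_three : ∀ q x y : Fin 3, q ≠ x → x ≠ y → q ≠ y → (univ : Finset (Fin 3)) = {q, x, y} := by decide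

theorem sum_three' (g : Fin 3 → ℕ) {q x y : Fin 3} (h1 : q ≠ x) (h2 : x ≠ y) (h3 : q ≠ y) :
    ∑ i, g i = g q + g x + g y := by
  rw [univ_three q x y h1 h2 h3, sum_insert (by simp [h1, h3]), sum_insert (by simp [h2]), sum_singleton]
  ring

theorem prod_three' (g : Fin 3 → ℕ) {q x y : Fin 3} (h1 : q ≠ x) (h2 : x ≠ y) (h3 : q ≠ y) :
    ∏ i, g i = g q * g x * g y := by
  rw [univ_three q x y h1 h2 h3, prod_insert (by simp [h1, h3]), prod_insert (by simp [h2]), prod_singleton]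
  ring

/-- rank three -/
theorem rank3 {N : ℕ} (f : Fin N → Fin 3 → ℕ) (b : Fin 3 → ℕ) (hf : ∀ a, 0 < ∑ j, f a j) (hb : ∀ j, 0 < b j)
    (hk : ∀ j k, 1 ≤ k → k ≤ 3 → ∃ a, f a j = 1 ∧ (∀ i, f a i ≤ 1) ∧ ∑ i, f a i = k) (q : Fin 3)
    (hq : ∀ i, b i ≤ b q) : (b q * ∏ i, b i) ^ 3 ≤ (∏ a, ∑ j, f a j * b j) ^ 2 := by
  classical
  obtain ⟨F, hF⟩ : ∃ F : Fin N → ℕ, ∀ a, F a = ∑ j, f a j * b j := ⟨_, fun _ => rfl⟩
  simp only [← hF]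
  have hF1 : ∀ a, 1 ≤ F a := fun a => by rw [hF]; exact one_le_F3 f b hf hb a
  obtain ⟨a2, ha2, ha2', ha2''⟩ := hk q 2 (by norm_num) (by norm_num)
  obtain ⟨x, y, hqx, hxy, hqy, hx, hy⟩ := two_others (f a2) q ha2 ha2' ha2''
  obtain ⟨a3, ha3, _, ha3'⟩ := hk q 3 (by norm_num) le_rfl
  obtain ⟨a2', hb2, hb2', hb2''⟩ := hk y 2 (by norm_num) (by norm_num)
  have hne : a2 ≠ a2' := by
    rintro rfl
    omega
  obtain ⟨G, hG⟩ : ∃ G : Finset (Fin N), G = univ.filter (fun a => ∑ i, f a i = 1) := ⟨_, rfl⟩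
  have hT : ∏ j, b j ≤ ∏ a ∈ G, F a := by
    have h1 := prod_b_le3 f b hb 1 fun j => by
      obtain ⟨a, h1, _, h2⟩ := hk j 1 le_rfl (by norm_num)
      exact ⟨a, h1, h2⟩
    rw [pow_one] at h1
    rw [hG]
    simp only [hF]
    exact h1
  have hP : (∏ a ∈ G, F a) * (F a2 * F a2' * F a3) ≤ ∏ a, F a := by
    have h1 : a2 ∉ G := by
      rw [hG, mem_filter, ha2'']
      simp
    have h2 : a2' ∉ G := by
      rw [hG, mem_filter, hb2'']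
      simp
    have h3 : a3 ∉ G := by
      rw [hG, mem_filter, ha3']
      simp
    have h4 : a2 ≠ a3 := by
      rintro rfl
      omega
    have h5 : a2' ≠ a3 := by
      rintro rfl
      omega
    have h6 : ∏ a ∈ insert a2 (insert a2' (insert a3 G)), F a ≤ ∏ a, F a :=
      prod_le_prod_of_subset_of_one_le' (subset_univ _) fun a _ _ => hF1 a
    rw [prod_insert (by simp [hne, h4, h1]), prod_insert (by simp [h5, h2]), prod_insert h3] at h6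
    calc _ = F a2 * (F a2' * (F a3 * ∏ a ∈ G, F a)) := by ring
      _ ≤ _ := h6
  have hu : b q ≤ F a2 := by rw [hF]; exact b_le_F3 f b (by omega)
  have hw : b q ≤ F a3 := by rw [hF]; exact b_le_F3 f b (by omega)
  have hvy : b y ≤ F a2' := by rw [hF]; exact b_le_F3 f b (by omega)
  have hvx : b x ≤ F a2' := by
    have h1 := sum_three' (f a2') hqx hxy hqy
    rw [hb2'', hb2] at h1
    have h2 := hb2' q
    have h3 := hb2' x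
    rcases Nat.eq_zero_or_pos (f a2' x) with h | h
    · refine (hq x).trans ?_
      rw [hF]
      exact b_le_F3 f b (by omega)
    · rw [hF]
      exact b_le_F3 f b h
  obtain ⟨T, hTT⟩ : ∃ T, T = ∏ j, b j := ⟨_, rfl⟩
  have hT3 : T = b q * b x * b y := by rw [hTT, prod_three' b hqx hxy hqy]
  rw [← hTT] at hT ⊢
  have h1 : T * (b q * F a2' * b q) ≤ ∏ a, F a := by
    refine le_trans (Nat.mul_le_mul hT (Nat.mul_le_mul (Nat.mul_le_mul_right _ hu) hw)) hP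
  have h2 : b x * b y ≤ F a2' * F a2' := Nat.mul_le_mul hvx hvy
  calc (b q * T) ^ 3 = T ^ 2 * b q ^ 3 * T := by ring
    _ = T ^ 2 * b q ^ 3 * (b q * b x * b y) := by rw [← hT3]
    _ = T ^ 2 * b q ^ 4 * (b x * b y) := by ring
    _ ≤ T ^ 2 * b q ^ 4 * (F a2' * F a2') := Nat.mul_le_mul_left _ h2
    _ = (T * (b q * F a2' * b q)) ^ 2 := by ring
    _ ≤ _ := Nat.pow_le_pow_left h1 2

/-- rank two -/
theorem rank2 {N : ℕ} (f : Fin N → Fin 2 → ℕ) (b : Fin 2 → ℕ) (hf : ∀ a, 0 < ∑ j, f a j) (hb : ∀ j, 0 < b j)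
    (hk : ∀ j, ∃ a, f a j = 1 ∧ ∑ i, f a i = 1) : ∏ i, b i ≤ ∏ a, ∑ j, f a j * b j ∧
    ∀ q a a', a ≠ a' → (∀ j, 1 ≤ f a j) → (∀ j, 1 ≤ f a' j) → b q ^ 2 * ∏ i, b i ≤ ∏ a, ∑ j, f a j * b j := by
  classical
  obtain ⟨F, hF⟩ : ∃ F : Fin N → ℕ, ∀ a, F a = ∑ j, f a j * b j := ⟨_, fun _ => rfl⟩
  simp only [← hF]
  have hF1 : ∀ a, 1 ≤ F a := fun a => by rw [hF]; exact one_le_F3 f b hf hb a
  obtain ⟨G, hG⟩ : ∃ G : Finset (Fin N), G = univ.filter (fun a => ∑ i, f a i = 1) := ⟨_, rfl⟩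
  have hT : ∏ j, b j ≤ ∏ a ∈ G, F a := by
    have h1 := prod_b_le3 f b hb 1 hk
    rw [pow_one] at h1
    rw [hG]
    simp only [hF]
    exact h1
  refine ⟨hT.trans (prod_le_prod_of_subset_of_one_le' (subset_univ _) fun a _ _ => hF1 a), ?_⟩
  intro q a a' hne ha ha'
  have h1 : a ∉ G := by
    rw [hG, mem_filter, Fin.sum_univ_two]
    have := ha 0
    have := ha 1
    omega
  have h2 : a' ∉ G := by
    rw [hG, mem_filter, Fin.sum_univ_two]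
    have := ha' 0
    have := ha' 1
    omega
  have h6 : ∏ a ∈ insert a (insert a' G), F a ≤ ∏ a, F a :=
    prod_le_prod_of_subset_of_one_le' (subset_univ _) fun a _ _ => hF1 a
  rw [prod_insert (by simp [hne, h1]), prod_insert h2] at h6
  have hu : b q ≤ F a := by rw [hF]; exact b_le_F3 f b (ha q)
  have hv : b q ≤ F a' := by rw [hF]; exact b_le_F3 f b (ha' q)
  calc b q ^ 2 * ∏ i, b i = b q * (b q * ∏ i, b i) := by ring
    _ ≤ F a * (F a' * ∏ a ∈ G, F a) := Nat.mul_le_mul hu (Nat.mul_le_mul hv hT)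
    _ ≤ _ := h6

/-- rank two, `b` constant -/
theorem cnt_const (Y : ℕ) (B : Finset (Fin 2 → ℕ)) (h : ∀ b ∈ B, (∀ i, 1 ≤ b i) ∧ b 0 = b 1 ∧ ∏ i, b i ≤ Y) :
    (B.card : ℝ) ≤ 1 * (Y : ℝ) ^ (1 / 2 : ℝ) := by
  have h1 : B.card ≤ (Icc 1 (Nat.sqrt Y)).card := by
    refine card_le_card_of_injOn (fun b => b 0) (fun b hb => ?_) ?_
    · obtain ⟨h2, h3, h4⟩ := h b hb
      rw [Fin.prod_univ_two, ← h3] at h4
      refine mem_coe.2 (mem_Icc.2 ⟨h2 0, ?_⟩)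
      rw [Nat.le_sqrt]
      exact h4
    · intro b hb b' hb' he
      obtain ⟨_, h3, _⟩ := h b hb
      obtain ⟨_, h3', _⟩ := h b' hb'
      have he' : b 0 = b' 0 := he
      funext i
      fin_cases i
      · exact he'
      · change b 1 = b' 1
        rw [← h3, ← h3', he']
  rw [Nat.card_Icc, Nat.add_sub_cancel] at h1
  rw [one_mul, ← Real.sqrt_eq_rpow]
  calc (B.card : ℝ) ≤ (Nat.sqrt Y : ℝ) := by exact_mod_cast h1
    _ ≤ √(Y : ℝ) := Real.nat_sqrt_le_real_sqrt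

private theorem Half.mono12 {S T : Set ℕ} (h : Half T) (hST : S ⊆ T) : Half S := by
  classical
  obtain ⟨C, hC⟩ := h
  refine ⟨C, fun X => le_trans ?_ (hC X)⟩
  have : PW.cn S X ≤ PW.cn T X := by
    unfold PW.cn
    refine card_le_card fun n hn => ?_
    rw [mem_filter] at hn ⊢
    exact ⟨hn.1, hST hn.2⟩
  exact_mod_cast this

private theorem Half.iUnion12 {ι : Type*} [Fintype ι] (S : ι → Set ℕ) (h : ∀ i, Half (S i)) :
    Half (⋃ i, S i) := by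
  classical
  choose C hC using h
  refine ⟨∑ i, C i, fun X => ?_⟩
  have h1 : PW.cn (⋃ i, S i) X ≤ ∑ i, PW.cn (S i) X := by
    unfold PW.cn
    refine le_trans (card_le_card (t := univ.biUnion fun i => (Icc 1 X).filter (· ∈ S i)) ?_) card_biUnion_le
    intro n hn
    rw [mem_filter] at hn
    obtain ⟨i, hi⟩ := Set.mem_iUnion.1 hn.2
    exact mem_biUnion.2 ⟨i, mem_univ i, mem_filter.2 ⟨hn.1, hi⟩⟩
  calc (PW.cn (⋃ i, S i) X : ℝ) ≤ ((∑ i, PW.cn (S i) X : ℕ) : ℝ) := by exact_mod_cast h1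
    _ = ∑ i, (PW.cn (S i) X : ℝ) := by push_cast; rfl
    _ ≤ ∑ i, C i * (X : ℝ) ^ (1 / 2 : ℝ) := sum_le_sum fun i _ => hC i X
    _ = _ := by rw [sum_mul]

private theorem Half.union12 {S T : Set ℕ} (h : Half S) (h' : Half T) : Half (S ∪ T) := by
  rw [Set.union_eq_iUnion]
  refine Half.iUnion12 _ fun b => ?_
  cases b
  · exact h'
  · exact h

/-- The set for fixed coefficients. -/
def S3 {r N : ℕ} (f : Fin N → Fin r → ℕ) : Set ℕ := {n | ∃ (b : Fin r → ℕ),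
  2 ≤ r ∧ (∀ a, 0 < ∑ j, f a j) ∧ (∀ j, 0 < b j) ∧
  (∀ j k, 1 ≤ k → k ≤ r → ∃ a, f a j = 1 ∧ (∀ i, f a i ≤ 1) ∧ ∑ i, f a i = k) ∧
  (3 ≤ r ∨ (∃ a a', a ≠ a' ∧ (∀ j, 1 ≤ f a j) ∧ ∀ j, 1 ≤ f a' j) ∨ ∀ i j, b i = b j) ∧
  n * ∏ a, ∑ j, f a j = ∏ a, ∑ j, f a j * b j}

theorem s3_half
    (cnt2 : ∃ C : ℝ, ∀ (Y : ℕ) (B : Finset (Fin 2 → ℕ)), (∀ b ∈ B, (∀ i, 1 ≤ b i) ∧
      ∃ q, (∀ i, b i ≤ b q) ∧ b q ^ 2 * ∏ i, b i ≤ Y) → (B.card : ℝ) ≤ C * (Y : ℝ) ^ (1 / 2 : ℝ))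
    (cnt3 : ∃ C : ℝ, ∀ (Y : ℕ) (B : Finset (Fin 3 → ℕ)), (∀ b ∈ B, (∀ i, 1 ≤ b i) ∧
      ∃ q, (∀ i, b i ≤ b q) ∧ (b q * ∏ i, b i) ^ 3 ≤ Y ^ 2) → (B.card : ℝ) ≤ C * (Y : ℝ) ^ (1 / 2 : ℝ))
    (cnt4 : ∀ r : ℕ, ∃ C : ℝ, ∀ (Y : ℕ) (B : Finset (Fin r → ℕ)), (∀ b ∈ B, (∀ i, 1 ≤ b i) ∧
      (∏ i, b i) ^ 25 ≤ Y ^ 12) → (B.card : ℝ) ≤ C * (Y : ℝ) ^ (1 / 2 : ℝ))
    {r N : ℕ} (f : Fin N → Fin r → ℕ) : Half (S3 f) := by
  classical
  by_cases hf : ∀ a, 0 < ∑ j, f a j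
  swap
  · refine ⟨0, fun X => ?_⟩
    have h1 : PW.cn (S3 f) X = 0 := by
      unfold PW.cn
      rw [card_eq_zero, filter_eq_empty_iff]
      rintro n _ ⟨b, _, hf', _⟩
      exact hf hf'
    rw [h1, Nat.cast_zero, zero_mul]
  have hQ : 0 < ∏ a, ∑ j, f a j := prod_pos fun a _ => hf a
  have hmax : ∀ b : Fin r → ℕ, 0 < r → ∃ q, ∀ i, b i ≤ b q := by
    intro b hr
    obtain ⟨q, _, hq⟩ := exists_max_image (univ : Finset (Fin r)) b ⟨⟨0, hr⟩, mem_univ _⟩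
    exact ⟨q, fun i => hq i (mem_univ i)⟩
  rcases Nat.lt_or_ge r 2 with hr2 | hr2
  · refine ⟨0, fun X => ?_⟩
    have h1 : PW.cn (S3 f) X = 0 := by
      unfold PW.cn
      rw [card_eq_zero, filter_eq_empty_iff]
      rintro n _ ⟨b, h2, _⟩
      omega
    rw [h1, Nat.cast_zero, zero_mul]
  rcases Nat.lt_or_ge r 3 with hr3 | hr3
  · obtain rfl : r = 2 := by omega
    obtain ⟨C, hC⟩ := cnt2
    refine Half.mono12 (Half.union12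
      (half_of_code3 (S := {n | n ∈ S3 f ∧ ∃ b : Fin 2 → ℕ, (∀ i, 1 ≤ b i) ∧ (∃ q, (∀ i, b i ≤ b q) ∧
        b q ^ 2 * ∏ i, b i ≤ ∏ a, ∑ j, f a j * b j) ∧ n * ∏ a, ∑ j, f a j = ∏ a, ∑ j, f a j * b j}) hQ
        (fun b => (∀ i, 1 ≤ b i) ∧ ∃ q, (∀ i, b i ≤ b q) ∧ b q ^ 2 * ∏ i, b i ≤ ∏ a, ∑ j, f a j * b j)
        (fun b => ∏ a, ∑ j, f a j * b j) ?_ (C := C) ?_)
      (half_of_code3 (S := {n | n ∈ S3 f ∧ ∃ b : Fin 2 → ℕ, (∀ i, 1 ≤ b i) ∧ b 0 = b 1 ∧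
        ∏ i, b i ≤ ∏ a, ∑ j, f a j * b j ∧ n * ∏ a, ∑ j, f a j = ∏ a, ∑ j, f a j * b j}) hQ
        (fun b => (∀ i, 1 ≤ b i) ∧ b 0 = b 1 ∧ ∏ i, b i ≤ ∏ a, ∑ j, f a j * b j)
        (fun b => ∏ a, ∑ j, f a j * b j) ?_ (C := 1) ?_)) ?_
    · rintro n ⟨_, b, h1, h2, h3⟩
      exact ⟨b, ⟨h1, h2⟩, h3⟩
    · intro Y B hB
      refine hC Y B fun b hb => ?_
      obtain ⟨⟨h1, q, h2, h3⟩, h4⟩ := hB b hb
      exact ⟨h1, q, h2, h3.trans h4⟩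
    · rintro n ⟨_, b, h1, h2, h3, h4⟩
      exact ⟨b, ⟨h1, h2, h3⟩, h4⟩
    · intro Y B hB
      refine cnt_const Y B fun b hb => ?_
      obtain ⟨⟨h1, h2, h3⟩, h4⟩ := hB b hb
      exact ⟨h1, h2, h3.trans h4⟩
    · rintro n ⟨b, h2, _, hb, hk, hc, he⟩
      have hk1 : ∀ j, ∃ a, f a j = 1 ∧ ∑ i, f a i = 1 := fun j => by
        obtain ⟨a, h1, _, h2⟩ := hk j 1 le_rfl (by norm_num)
        exact ⟨a, h1, h2⟩
      obtain ⟨h3, h4⟩ := rank2 f b hf hb hk1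
      have hn : n ∈ S3 f := ⟨b, h2, hf, hb, hk, hc, he⟩
      rcases hc with hc | ⟨a, a', hne, ha, ha'⟩ | hc
      · omega
      · obtain ⟨q, hq⟩ := hmax b (by norm_num)
        exact Or.inl ⟨hn, b, hb, ⟨q, hq, h4 q a a' hne ha ha'⟩, he⟩
      · exact Or.inr ⟨hn, b, hb, hc 0 1, h3, he⟩
  rcases Nat.lt_or_ge r 4 with hr4 | hr4
  · obtain rfl : r = 3 := by omega
    obtain ⟨C, hC⟩ := cnt3
    refine half_of_code3 hQ (fun b => (∀ i, 1 ≤ b i) ∧ ∃ q, (∀ i, b i ≤ b q) ∧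
      (b q * ∏ i, b i) ^ 3 ≤ (∏ a, ∑ j, f a j * b j) ^ 2) (fun b => ∏ a, ∑ j, f a j * b j) ?_ (C := C) ?_
    · rintro n ⟨b, h2, _, hb, hk, hc, he⟩
      obtain ⟨q, hq⟩ := hmax b (by norm_num)
      exact ⟨b, ⟨hb, q, hq, rank3 f b hf hb hk q hq⟩, he⟩
    · intro Y B hB
      refine hC Y B fun b hb => ?_
      obtain ⟨⟨h1, q, h2, h3⟩, h4⟩ := hB b hb
      exact ⟨h1, q, h2, h3.trans (Nat.pow_le_pow_left h4 2)⟩
  · obtain ⟨C, hC⟩ := cnt4 r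
    refine half_of_code3 hQ (fun b => (∀ i, 1 ≤ b i) ∧
      (∏ i, b i) ^ 25 ≤ (∏ a, ∑ j, f a j * b j) ^ 12) (fun b => ∏ a, ∑ j, f a j * b j) ?_ (C := C) ?_
    · rintro n ⟨b, h2, _, hb, hk, hc, he⟩
      exact ⟨b, ⟨hb, rank4 f b hf hb hr4 hk⟩, he⟩
    · intro Y B hB
      refine hC Y B fun b hb => ?_
      obtain ⟨⟨h1, h3⟩, h4⟩ := hB b hb
      exact ⟨h1, h3.trans (Nat.pow_le_pow_left h4 12)⟩

/-- Block PX-12, with the counting lemmas of PX-11 as hypotheses. -/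
theorem dt3_half_of
    (cnt2 : ∃ C : ℝ, ∀ (Y : ℕ) (B : Finset (Fin 2 → ℕ)), (∀ b ∈ B, (∀ i, 1 ≤ b i) ∧
      ∃ q, (∀ i, b i ≤ b q) ∧ b q ^ 2 * ∏ i, b i ≤ Y) → (B.card : ℝ) ≤ C * (Y : ℝ) ^ (1 / 2 : ℝ))
    (cnt3 : ∃ C : ℝ, ∀ (Y : ℕ) (B : Finset (Fin 3 → ℕ)), (∀ b ∈ B, (∀ i, 1 ≤ b i) ∧
      ∃ q, (∀ i, b i ≤ b q) ∧ (b q * ∏ i, b i) ^ 3 ≤ Y ^ 2) → (B.card : ℝ) ≤ C * (Y : ℝ) ^ (1 / 2 : ℝ))
    (cnt4 : ∀ r : ℕ, ∃ C : ℝ, ∀ (Y : ℕ) (B : Finset (Fin r → ℕ)), (∀ b ∈ B, (∀ i, 1 ≤ b i) ∧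
      (∏ i, b i) ^ 25 ≤ Y ^ 12) → (B.card : ℝ) ≤ C * (Y : ℝ) ^ (1 / 2 : ℝ))
    (M : ℕ) : Half {n | Dt3 M n} := by
  classical
  refine Half.mono12 (Half.iUnion12 (ι := Σ (r : Fin (M + 1)) (N : Fin (M + 1)), (Fin N → Fin r → Fin (4 * M + 1)))
    (fun u => S3 (fun a j => (u.2.2 a j : ℕ))) fun u => s3_half cnt2 cnt3 cnt4 _) ?_
  rintro n ⟨r, N, f, b, h2r, hrM, hNM, hf4, hf, hb, hk, hc, he⟩
  refine Set.mem_iUnion.2 ⟨⟨⟨r, by omega⟩, ⟨N, by omega⟩, fun a j => ⟨f a j, by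
    have := hf4 a j
    omega⟩⟩, ?_⟩
  exact ⟨b, h2r, hf, hb, hk, hc, he⟩

end PX
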