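import Pool.Agent.Helper3.PW.Thin
import Pool.Agent.Helper81.PX.Defs

/-!
Project PX (MP_b8862a_ag), block PX-3: few roots, arithmetic.
-/

open Finset

namespace PX

theorem thin_of_pw3 {S : Set ℕ} (h : ∀ ε : ℝ, 0 < ε → PW.Thin S (1 / 2 + ε)) : Thin S := by
  intro ε hε
  obtain ⟨C, h0, h1⟩ := h ε hε
  refine ⟨C, fun X => ?_⟩
  rcases Nat.eq_zero_or_pos X with hX | hX
  · subst hX
    have h2 : PW.cn S 0 = 0 := by
      unfold PW.cn
      simp
    rw [h2, Nat.cast_zero]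
    positivity
  · exact h1 X hX

/-- the `k`-th powers -/
theorem pow_thin3 (k : ℕ) (hk : 2 ≤ k) : PW.Thin {n | ∃ b : ℕ, n = b ^ k} (1 / 2) := by
  classical
  refine ⟨1, zero_le_one, fun X hX => ?_⟩
  have h1 : PW.cn {n | ∃ b : ℕ, n = b ^ k} X ≤ Nat.sqrt X := by
    unfold PW.cn
    have h2 : (Icc 1 X).filter (· ∈ {n | ∃ b : ℕ, n = b ^ k}) ⊆ (Icc 1 (Nat.sqrt X)).image fun b => b ^ k := by
      intro n hn
      rw [mem_filter, mem_Icc] at hn
      obtain ⟨⟨h3, h4⟩, b, rfl⟩ := hn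
      refine mem_image.2 ⟨b, mem_Icc.2 ⟨?_, ?_⟩, rfl⟩
      · by_contra hb
        have hb0 : b = 0 := by omega
        subst hb0
        rw [zero_pow (by omega)] at h3
        omega
      · have hb : 1 ≤ b := by
          by_contra hb
          have hb0 : b = 0 := by omega
          subst hb0
          rw [zero_pow (by omega)] at h3
          omega
        rw [Nat.le_sqrt']
        exact (Nat.pow_le_pow_right hb hk).trans h4
    refine (card_le_card h2).trans (card_image_le.trans ?_)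
    rw [Nat.card_Icc]
    omega
  rw [one_mul, ← Real.sqrt_eq_rpow]
  calc (PW.cn {n | ∃ b : ℕ, n = b ^ k} X : ℝ) ≤ (Nat.sqrt X : ℝ) := by exact_mod_cast h1
    _ ≤ √(X : ℝ) := Real.nat_sqrt_le_real_sqrt

/-- Block PX-3. -/
theorem dt2_thin (M : ℕ) : Thin {n | Dt2 M n} := by
  refine thin_of_pw3 fun ε hε => ?_
  have h1 : PW.Thin (⋃ k : Fin (M + 1), {n | 2 ≤ (k : ℕ) ∧ ∃ b : ℕ, n = b ^ (k : ℕ)}) (1 / 2 + ε) := by
    refine PW.thin_iUnion3 _ fun k => ?_
    rcases Nat.lt_or_ge (k : ℕ) 2 with hk | hk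
    · refine PW.Thin.mono3 (T := ∅) ⟨0, le_rfl, fun X _ => ?_⟩ fun n hn => ?_
      · have h2 : PW.cn ∅ X = 0 := by
          unfold PW.cn
          simp
        rw [h2, Nat.cast_zero, zero_mul]
      · have := hn.1
        omega
    · exact PW.Thin.mono3 ((pow_thin3 k hk).le_exp (by linarith)) fun n hn => hn.2
  refine PW.Thin.mono3 (PW.Thin.union3 (PW.dt2_thin M hε) h1) ?_
  rintro n ⟨r, N, f, b, s, h2r, hrM, hNM, hf4, hf, hb, hs, hsf, ht | hbb, he⟩
  · obtain ⟨t, ht1, ht2, ht3⟩ := ht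
    exact Or.inl ⟨r, N, f, b, s, t, h2r, hrM, hNM, hf4, hf, hb, hs, hsf, ht1, ht2, ht3, he⟩
  · refine Or.inr (Set.mem_iUnion.2 ⟨⟨N, by omega⟩, ?_⟩)
    have hrN : r ≤ N := by
      have h2 := Fintype.card_le_of_injective s hs
      rwa [Fintype.card_fin, Fintype.card_fin] at h2
    refine ⟨le_trans h2r hrN, b ⟨0, by omega⟩, ?_⟩
    have h3 : ∀ a, ∑ j, f a j * b j = b ⟨0, by omega⟩ * ∑ j, f a j := by
      intro a
      rw [mul_sum]
      refine sum_congr rfl fun j _ => ?_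
      rw [hbb j ⟨0, by omega⟩, mul_comm]
    have h4 : n * ∏ a, ∑ j, f a j = b ⟨0, by omega⟩ ^ N * ∏ a, ∑ j, f a j := by
      rw [he]
      simp only [h3]
      rw [prod_mul_distrib, prod_const, card_univ, Fintype.card_fin]
    exact Nat.eq_of_mul_eq_mul_right (prod_pos fun a _ => hf a) h4

end PX
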