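import Pool.Agent.Helper3.PX.Dt3
import Pool.Agent.Helper59.PX.Cnt3
import Pool.Agent.Helper90.PX.Cnt24

/-!
Project PX (MP_b8862a_ag), block PX-12.
-/

namespace PX

/-- Block PX-12: few roots. -/
theorem dt3_half (M : ℕ) : Half {n | Dt3 M n} := dt3_half_of cnt2 cnt3 cnt4 M

end PX
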